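import Pool.Agent.Q71.MM.Fin3

/-!
# The motivic Mumford-Tate conjecture for sums of motives with bad reduction and any small motive

Let `k` be a finitely generated field of characteristic zero with the absolute Galois group `Γ` and
cyclotomic character `χ`, `K` an algebraic closure of `ℚ_ℓ`, `L` the Lie algebra of the motivic Galois
group (for absolute Hodge cycles it is the Lie algebra of the Mumford-Tate group, by Deligne) and
`t : L → K` its action on the Tate motive. The theorem is proved for any group, any set `L` and
any function `t`. A motive is given by its realization with the action of `Γ` and the operators of the
elements of `L`. The Mumford-Tate conjecture for `M` says that the Galois representation is semisimple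
(over all sufficiently large finite extensions) and that every multilinear form which an open subgroup
multiplies by `χ ^ n` satisfies the infinitesimal invariance condition `f(a v, ..) + .. = n t(a) f(v, ..)`
for all `a` in `L`: the reductive groups `G_ℓ°` and `G_σ` have the same invariants.

Let `T_j` be motives (for instance transcendental or primitive parts of the cohomology of varieties)
of weights `w_j`, polarized, such that the Galois representation is irreducible under all open
subgroups. If `w_j` is odd suppose that some element of an inertia group acts on `T_j` by a
transvection; if `w_j` is even suppose that the rank is `3` or at least `5` and some element of an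
inertia group acts with `(g - 1)^3 = 0`, `(g - 1)^2 ≠ 0` and `g - 1` of rank `2` (type III). Suppose that the
`T_j` with weights of the same parity are not isomorphic up to a twist, and that no rank in even weight
is by one larger than one in odd weight.

Let `N` be any motive whose realization is spanned by the images of representations `U` which are
small: for each `j` the space `U` has an invariant form up to a character and small dimension, or inertia
acts on `U` with smaller rank than on `T_j` (`InertiaSmall`). For instance, `N` is any motive of good
reduction at the places where the `T_j` are bad (with no condition on the rank).

**Theorem.** For all direct sums `W` of `N` with copies of the `T_j`, the Mumford-Tate conjecture is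
true for `W` if and only if it is true for `N`. It is true for all `W` if `N` is a sum of Tate
motives.
-/

namespace Pool.Agent.Results.MP_de8692_ag.LocalInertiaSums

open Pool.Agent.Q71.MM.P Pool.Agent.Q71.AB.P

/-- **The motivic Mumford-Tate conjecture for sums.** -/
theorem result {K : Type} [Field K] [CharZero K] [IsAlgClosed K] {Γ : Type} [Group Γ]
    {χ : Γ →* Kˣ} {L : Type} {t : L → K} {J : Type} {w : J → ℤ} {T : J → Mot K Γ L}
    {N W : Mot K Γ L} (hT : InertiaFamily χ t w T) (hW : IsSum T N W) :
    (HasPieces (fun U => ∀ j, InertiaSmall (w j) (T j).rep U) N.rep →
      (MumfordTate χ t W ↔ MumfordTate χ t N)) ∧
    (InfiniteOrder χ → TateSum χ t N → MumfordTate χ t W) :=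
  ⟨fun hN => Pool.Agent.Q71.MM.mt_inertia hT hN hW,
    fun hχ hN => Pool.Agent.Q71.MM.mt_inertia_tate hT hχ hN hW⟩

end Pool.Agent.Results.MP_de8692_ag.LocalInertiaSums
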