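import Pool.Agent.Q193.LT.Sub
import Pool.Agent.Q193.LT.Gal

/-!
# The motivic Mumford-Tate conjecture and the cubic hypersurfaces `T(x, y, z) = 1`

Let `k` be a finitely generated field of characteristic zero with an embedding in `ℂ`, `ℓ` a prime
number, and `M` the category of motives over `k` in the sense of André or for absolute Hodge cycles, a
semisimple abelian category with Tate twists `N ↦ N(a)`. For a separated scheme `X` of finite type over
`k` let `D.H i X` be the object of `M` given by the graded object of the weight filtration of the
cohomology with compact supports `H^i_c(X)`; for smooth projective `X` it is the motive `h^i(X)`.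

Let `ω` be the `ℓ`-adic realization, with values in the representations of the absolute Galois group of
`k` (modules over the group algebra), and `vs ω` the underlying vector space. For a motive `N` let
`Hg.V N ⊆ ω(N)` be the `ℚ_ℓ`-span of the Hodge classes of type `(0, 0)` (in `H_Betti(N) ⊗ ℚ_ℓ = ω(N)`) and
`Tt.V N ⊆ ω(N)` the space of the vectors fixed by a subgroup of finite index of the Galois group.
`MT N` says that for all Tate twists `N(a)` the representation `ω(N(a))` is semisimple and
`Hg.V N(a) = Tt.V N(a)`.

The equality `G°_{ℓ,k}(N) = G_σ(N)_{ℚ_ℓ}` of question Q1 for all motives `N` over `k` is equivalent to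
`MT N` for all motives `N` over `k`: if `ω(N)` is semisimple, both groups are reductive, and they are
determined by their invariants in the tensor constructions of `N`, which are the two spaces; conversely,
`G_σ(N)` is reductive. Every motive is a direct factor of a sum of motives `h^i(Y)(a)` of smooth
projective varieties, and `MT` is inherited by direct factors; so question Q1 for `k` and `ℓ` is the
statement that `MT (h^i(Y))` is true for all smooth projective `Y` over `k` and all `i`.

**Theorem.** (1) `MT (h^i(Y))` is true for all smooth projective `Y` over `k` and all `i` (question Q1 for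
`k` and `ℓ`) if and only if `MT (Gr^W H^i_c(T = 1))` is true for the smooth affine cubic hypersurfaces
`T(x, y, z) = 1` of all trilinear forms `T` over `k` and all `i`. If `k = ℚ`, it is enough to consider the
hypersurfaces `X_H : ∑_{(i, j, l) ∈ H} x_i y_j z_l = 1` of the finite sets `H` of triples.

(2) For all `n`, `MT (h^i(Y))` is true for all smooth projective `Y` of dimension at most `n` over `k` and
all `i` if and only if `MT (Gr^W H^i_c(T = 1))` is true for all `i` and all trilinear forms `T` over `k`
such that one of the three blocks of variables has at most `n + 2` variables (the other two blocks are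
arbitrary).

(3) Unconditionally, `MT (Gr^W H^i_c(T = 1))` is true if one of the three blocks of variables has at most
three variables.
-/

set_option autoImplicit false

open CategoryTheory CategoryTheory.Limits AlgebraicGeometry Pool.Agent.Y116.UV Pool.Agent.Z125.UN
  Pool.Agent.Q193.LT

universe w v u

namespace Pool.Agent.Results.MP_de8692_ag.MonodromyCubics

variable {k : Type} [Field k] {M : Type u} [Category.{v} M] [Abelian M] {ℓ : ℕ} [Fact ℓ.Prime]

/-- The vector spaces underlying the representations. -/
noncomputable abbrev vs (ω : M ⥤ ModuleCat.{w} (GalAlg k ℓ)) : M ⥤ ModuleCat.{w} ℚ_[ℓ] :=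
  ω ⋙ ModuleCat.restrictScalars (algebraMap ℚ_[ℓ] (GalAlg k ℓ))

/-- For all Tate twists of `N`, the `ℓ`-adic realization is semisimple, and the Hodge classes span the
Tate classes. -/
def MT (D : CompactData k M) {ω : M ⥤ ModuleCat.{w} (GalAlg k ℓ)} (Hg Tt : SubFunctor (vs ω))
    (N : M) : Prop :=
  SemiAt D ω N ∧ SameSub D Hg Tt N

/-- `MT (h^i(Y))` for all smooth projective schemes of dimension at most `n`. -/
def Proj (D : CompactData k M) {ω : M ⥤ ModuleCat.{w} (GalAlg k ℓ)} (Hg Tt : SubFunctor (vs ω))
    (n : ℕ) : Prop :=
  ∀ Y : Sch k, SmoothProj Y → topologicalKrullDim Y.left ≤ n → ∀ i, MT D Hg Tt (D.H i Y)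

/-- `MT (Gr^W H^i_c(T = 1))` for all hypersurfaces `T = 1` with a block of at most `m` variables. -/
def Forms (D : CompactData k M) {ω : M ⥤ ModuleCat.{w} (GalAlg k ℓ)} (Hg Tt : SubFunctor (vs ω))
    (m : ℕ) : Prop :=
  ∀ (a b c : ℕ) (T : Fin a → Fin b → Fin c → k), (a ≤ m ∨ b ≤ m ∨ c ≤ m) →
    ∀ i, MT D Hg Tt (D.H i (hypS T))

/-- **The motivic Mumford-Tate conjecture and cubic hypersurfaces.** See the explanations above. The known
cases that are used are those of the point and of curves (Faltings; there the classes in question are
algebraic). -/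
theorem result [CharZero k] (_hk : (⊤ : Subfield k).FG) {D : CompactData k M}
    {ω : M ⥤ ModuleCat.{w} (GalAlg k ℓ)} (h : IsMotivic D ω) {Hg Tt : SubFunctor (vs ω)}
    (point : ∀ i, MT D Hg Tt (D.H i (aff k k))) (curves : Proj D Hg Tt 1) :
    ((∀ Y : Sch k, SmoothProj Y → ∀ i, MT D Hg Tt (D.H i Y)) ↔
      ∀ (a b c : ℕ) (T : Fin a → Fin b → Fin c → k), ∀ i, MT D Hg Tt (D.H i (hypS T))) ∧
    (Frac k → ((∀ Y : Sch k, SmoothProj Y → ∀ i, MT D Hg Tt (D.H i Y)) ↔
      ∀ (a b c : ℕ) (H : Finset (Fin a × Fin b × Fin c)), ∀ i,
        MT D Hg Tt (D.H i (tripS k H)))) ∧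
    (∀ n : ℕ, Proj D Hg Tt n ↔ Forms D Hg Tt (n + 2)) ∧ Forms D Hg Tt 3 := by
  have := h.additive
  have hS : IsTateSerre D (MT D Hg Tt) :=
    h.semi.and (sameSub_serre h.compact h.semisimple Hg Tt)
  exact ⟨proj_all_iff h.compact h.generated hS point,
    fun hk => proj_graph_iff hk h.compact h.generated hS point,
    fun n => proj_iff h.compact h.generated hS point n,
    (proj_iff h.compact h.generated hS point 1).mp curves⟩

end Pool.Agent.Results.MP_de8692_ag.MonodromyCubics
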