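import Mathlib
import Pool.Agent.Q70.MM.MotSum
import Pool.Agent.Q306.TP.AngleMain

/-!
# The motivic Mumford-Tate conjecture for the sums of arbitrary motives with abelian varieties whose
reduction at one place has simple factors of odd prime dimensions

Let `k` be a finitely generated subfield of the complex numbers, `A` an abelian variety over `k`, of any
dimension and with arbitrary endomorphisms, and let `N` be **any motive** over `k` (for instance the
cohomology of any smooth projective variety, in all degrees). The theorem says, under conditions on
**one** Frobenius element, that **the Mumford-Tate conjecture holds for the motive `h_1(A) ⊕ N` if and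
only if it holds for `N`** (and it holds for `A`: `N = 0`).

The formal statement (the definitions are those of `SumsWithMotives` in this folder, by helper70). A
motive is given by the following data: the Betti realization `W` (a rational vector space), its Hodge
structure, given by a map `per` from `W` to a real vector space `R` and by the operation `h z` of the
complex numbers `z` of absolute value one on `R` (multiplication by `z ^ (p - q)` on the part of type
`(p, q)`), the `ℓ`-adic realization `V` with the action `ρ` of the Galois group, and the comparison map
`comp` from `W` to `V`. The conjecture for the motive (`MumfordTateFor`) says that all `ℓ`-adic Tate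
classes in the spaces of multilinear forms in `b` variables on `V`, for all `b` and all Tate twists `c`
in `ℤ`, are linear combinations of Hodge classes: of rational forms whose real extensions are
invariant under `h z`, `|z| = 1`. Because of the polarizations these spaces contain all tensor
constructions on the motive; the translation to the groups of the question (which uses that the
groups are reductive) is not formalized. For the abelian variety `A` the data are `W = H_1(A, ℚ)`, the
tangent space `T`, the Tate module, the Weil pairing; the theorems of Faltings on endomorphisms and on
semisimplicity are part of the data (`IsRealization`). The data of the sum are the direct sums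
(`sumHodge`, `sumRep`).

The conditions. Let `γ` be a Frobenius element at a place of good reduction, with a residue field of
`q = p ^ a` elements. The characteristic polynomial of `γ` on the Tate module of `A` is the product of
the minimal polynomials of Weil numbers `π i` generating CM fields `F i`, such that (`IsSimpleWeil`)

* `π i` is not supersingular, and the functions `n` on the complex embeddings of `F i` with
  `n (conj φ) = - n φ` are an irreducible rational representation of the automorphisms of `ℂ`; or
* the degree of `F i` is `2 g` for an **odd prime number** `g`, all powers of `π i` generate `F i`, and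
  either there is no Weil relation (`NoWeil`: no positive power of the norm of `π i` to an imaginary
  quadratic subfield of `F i` is a power of `q`; this is true if there is no such subfield), or the slopes
  are `0`, `1 / 2`, `1` and the slope `0` has odd multiplicity (`HasOddRank`). By the second part this
  includes **all ordinary** `π i`; it includes also those of K3 type (slope `0` once).

So the reduction of `A` is isogenous to a product of geometrically simple abelian varieties of odd
prime dimensions, or with irreducible odd functions. Of the fields we suppose only that **no two of the
fields `F i` have the same degree and the same normal closure, and no two of them contain the same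
imaginary quadratic field** (`IsDifferent`).

The condition on `N` is: `γ` is killed on the `ℓ`-adic realization of `N` by a nonzero rational
polynomial (by the Weil conjectures one can take a power of the characteristic polynomial) all of whose
complex roots are **products of algebraic numbers, any number of them**, each of which is unrelated to
all the fields `F i` (`UnrelatedTo`: an odd function on the embeddings of `F i` invariant under all
automorphisms of `ℂ` that fix a power of the number is zero). By the other parts the following numbers
are unrelated to `F i`:

* numbers with a rational power (third part);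
* all elements of number fields `E` which have no imaginary quadratic subfield in common with `F i` and
  whose normal closure does not contain that of `F i` (fourth part);
* all elements of CM fields `E` of a degree smaller than that of `F i` which have no imaginary quadratic
  subfield in common with `F i` (fifth part).

For example let `A` be an abelian variety of dimension `g_1 + ... + g_n` for different odd prime numbers
`g_i`, whose reduction is isogenous to a product of ordinary geometrically simple abelian varieties of
dimensions `g_i` without a common imaginary quadratic field, and let `N` be any sum of tensor products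
of motives `N_l` such that the field generated by each Frobenius eigenvalue of `N_l` is a CM field of
degree less than `2 min g_i` without an imaginary quadratic field of the fields `F i`, or totally
real. Then the Mumford-Tate conjecture for `h_1(A) ⊕ N` is equivalent to the one for `N`.

Relation to the starting files and to the results of this team. The theorem for arbitrary `N` under the
condition that the `π i` have maximal angle rank is `mumfordTate_sum` of helper70; the admissible
products of unrelated numbers are from my theorem `SmallRankTensorMotives` (MP_3703a7_ag). Helper70's
`SumsWithMotives` treats fields with absolutely irreducible odd functions and slopes in general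
position, so that the fields contain no imaginary quadratic field (except if they are quadratic).
The starting file `OneFrobeniusTowers` (MP_c1bb77_ag, for `N = 0`) contains the case of ordinary `π i` in
extensions `F i` of prime degree of imaginary quadratic fields, if all pairs of embeddings of different
`F i` are flipped by some automorphism. New here: the criterion for families of fields of degrees `2 g`,
`g` prime, with and without imaginary quadratic subfields, by the degrees, the normal closures and the
quadratic subfields only, not only ordinary ones, and the sums with motives `N` with the criteria for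
the unrelated numbers. The linear algebra of the odd functions for prime `g` (`prime_triC`) is from my
theorem `PrimeDimensions` (MP_ee618e_ag). Published: for **one simple** abelian variety of odd prime
dimension over a finite field the angle rank was determined by Tankeev and Zarhin; for `N` an
abelian motive Vasiu and Commelin proved that the Mumford-Tate conjecture for the sum follows from the
conjectures for `A` and `N`.
-/

set_option autoImplicit false

namespace Pool.Agent.Results.MP_de8692_ag.PrimeReduction

open NumberField Module IntermediateField Pool.Agent.H204R3.GP Pool.Agent.TH170
  Pool.Agent.Y137.MV Pool.Agent.Y1.CT Pool.Agent.Q70.MM Pool.Agent.Q306.TP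

/-- For all abelian varieties `A` over a finitely generated subfield of the complex numbers with a
Frobenius element `γ` whose characteristic polynomial on the Tate module is the product of the
minimal polynomials of the Weil numbers `π i`, and all motives `N` for which `γ` is killed, on the
`ℓ`-adic realization, by a rational polynomial `f` all of whose complex roots are products of numbers
unrelated to all the fields `F i`: the Mumford-Tate conjecture holds for the sum `H_1(A) ⊕ N` if and only
if it holds for `N`. -/
def SumHolds (p : ℕ) [Fact p.Prime] (a : ℕ) {I : Type} [Fintype I]
    (F : I → Type) [∀ i, Field (F i)] [∀ i, NumberField (F i)] [∀ i, IsCMField (F i)]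
    (π : ∀ i, F i) : Prop :=
  ∀ (ℓ : ℕ) [Fact ℓ.Prime] (W T V Γ WN R M : Type) [AddCommGroup W] [Module ℚ W]
    [AddCommGroup T] [Module ℂ T] [AddCommGroup V] [Module ℚ_[ℓ] V] [FiniteDimensional ℚ_[ℓ] V]
    [Group Γ] [AddCommGroup WN] [Module ℚ WN] [AddCommGroup R] [Module ℝ R] [AddCommGroup M]
    [Module ℚ_[ℓ] M] [FiniteDimensional ℚ_[ℓ] M] (per : W →+ T) (ω₀ : W →ₗ[ℚ] W →ₗ[ℚ] ℚ)
    (comp : W →+ V) (ρ : Representation ℚ_[ℓ] Γ V) (χ : Γ →* ℚ_[ℓ])
    (ω : V →ₗ[ℚ_[ℓ]] V →ₗ[ℚ_[ℓ]] ℚ_[ℓ]) (perN : WN →+ R) (h : ℂ → R →ₗ[ℝ] R) (compN : WN →+ M)
    (τ : Representation ℚ_[ℓ] Γ M) (γ : Γ) (f : Polynomial ℚ),
    FT.IsRealization per ω₀ comp ρ χ ω → χ γ = (p : ℚ_[ℓ]) ^ a →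
    (ρ γ).charpoly = ∏ i, (minpoly ℚ (π i)).map (algebraMap ℚ ℚ_[ℓ]) → f ≠ 0 →
    Polynomial.aeval (τ γ) (f.map (algebraMap ℚ ℚ_[ℓ])) = 0 →
    (∀ α : ℂ, Polynomial.aeval α f = 0 → IsProductOfUnrelated F α) →
      (MumfordTateFor (per.prodMap perN) (sumHodge h) (comp.prodMap compN) (sumRep ρ τ) χ ↔
        MumfordTateFor perN h compN τ χ)

/-- **The Mumford-Tate conjecture holds for `h_1(A) ⊕ N` if and only if it holds for `N`, for the
abelian varieties `A` whose reduction at one place is a product of geometrically simple abelian
varieties of odd prime dimensions or with irreducible odd functions (first part), for instance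
ordinary ones (second part), and all motives `N` whose Frobenius eigenvalues are products of unrelated
numbers (criteria: last three parts).** -/
theorem result :
    (∀ (p : ℕ) [Fact p.Prime] (a : ℕ) (I : Type) [Fintype I] (F : I → Type)
      [∀ i, Field (F i)] [∀ i, NumberField (F i)] [∀ i, IsCMField (F i)] (π : ∀ i, F i), 0 < a →
      (∀ i, ℚ⟮π i⟯ = ⊤) → (∀ i, π i * IsCMField.complexConj (F i) (π i) = (p : F i) ^ a) →
      (∀ i, IsSimpleWeil p a (π i)) → (∀ i k, i ≠ k → IsDifferent (F i) (F k)) →
      SumHolds p a F π) ∧
    (∀ (p : ℕ) [Fact p.Prime] (a : ℕ) (K : Type) [Field K] [NumberField K] [IsCMField K] (π : K),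
      0 < a → π * IsCMField.complexConj K π = (p : K) ^ a →
      (∃ g : ℕ, g.Prime ∧ g ≠ 2 ∧ finrank ℚ K = 2 * g) → (∀ s : ℕ, 0 < s → ℚ⟮π ^ s⟯ = ⊤) →
      (∀ τ : K →+* PadicAlgCl p, ‖τ π‖ = 1 ∨ ‖τ π‖ = ‖(p : PadicAlgCl p) ^ a‖) →
      IsSimpleWeil p a π) ∧
    (∀ (K : Type) [Field K] [NumberField K] [IsCMField K] (y : ℂ) (N : ℕ) (r : ℚ), 0 < N →
      y ^ N = (r : ℂ) → UnrelatedTo K y) ∧
    (∀ (p : ℕ) [Fact p.Prime] (a : ℕ) (K : Type) [Field K] [NumberField K] [IsCMField K] (π : K),
      IsSimpleWeil p a π → ∀ (E : Type) [Field E] [NumberField E],
      ¬ normalClosure ℚ K ℂ ≤ normalClosure ℚ E ℂ → ¬ CommonImaginary K E →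
      ∀ (φ : E →+* ℂ) (x : E), UnrelatedTo K (φ x)) ∧
    (∀ (p : ℕ) [Fact p.Prime] (a : ℕ) (K : Type) [Field K] [NumberField K] [IsCMField K] (π : K),
      IsSimpleWeil p a π → ∀ (E : Type) [Field E] [NumberField E] [IsCMField E],
      finrank ℚ E < finrank ℚ K → ¬ CommonImaginary K E →
      ∀ (φ : E →+* ℂ) (x : E), UnrelatedTo K (φ x)) := by
  refine ⟨?_, ?_, ?_, ?_, ?_⟩
  · intro p _ a I _ F _ _ _ π ha hg hw hs hd ℓ _ W T V Γ WN R M _ _ _ _ _ _ _ _ _ _ _ _ _ _ _
      per ω₀ comp ρ χ ω perN h compN τ γ f hR hχ hγ hf0 hfγ hf
    exact mumfordTate_sum hg hw (angle_family' ha hw hs hd) hR γ hχ hγ hf0 hfγ hf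
  · intro p _ a K _ _ _ π ha hw hK hgen hord
    exact simpleWeil_of_ordinary ha hw hK hgen hord
  · intro K _ _ _ y N r hN h
    exact unrelated_of_root hN h
  · intro p _ a K _ _ _ π h E _ _ hle hcom φ x
    exact unrelated_of_simple h hle hcom φ x
  · intro p _ a K _ _ _ π h E _ _ _ hdeg hcom φ x
    exact unrelated_of_simple_degree h hdeg hcom φ x

end Pool.Agent.Results.MP_de8692_ag.PrimeReduction
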