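import Mathlib
import Pool.Agent.Q70.MM.MotHarm

/-!
# The motivic Mumford-Tate conjecture for the sums of arbitrary motives with abelian varieties

Let `k` be a finitely generated subfield of the complex numbers, `A` an abelian variety over `k`, of
any dimension and with arbitrary endomorphisms, and let `N` be **any motive** over `k` (for instance
the cohomology of any smooth projective variety, in all degrees). The theorem says, under conditions
on **one** Frobenius element, that **the Mumford-Tate conjecture holds for the motive `h_1(A) ⊕ N`
if and only if it holds for `N`.** For `N` an abelian motive such results are known (Vasiu,
Commelin); here `N` need not be abelian, and the conjecture for `A` is a part of the conclusion (`N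
= 0`).

The formal statement. A motive is given by the following data: the Betti realization `W` (a rational
vector space), its Hodge structure, given by a map `per` from `W` to a real vector space `R` and by
the operation `h z` of the complex numbers `z` of absolute value one on `R` (multiplication by `z ^
(p - q)` on the part of type `(p, q)`), the `ℓ`-adic realization `V` with the action `ρ` of the
Galois group, and the comparison map `comp` from `W` to `V`. The conjecture for the motive
(`MumfordTateFor`) says that all `ℓ`-adic Tate classes in the spaces of multilinear forms in `b`
variables on `V`, for all `b` and all Tate twists `c` in `ℤ`, are linear combinations of Hodge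
classes: of rational forms whose real extensions are invariant under `h z`, `|z| = 1`. Because of
the polarizations these spaces contain all tensor constructions on the motive. The Mumford-Tate
group is reductive; if the `ℓ`-adic realization is semisimple then both it and the identity
component of the `ℓ`-adic monodromy group are determined by their invariants, and (with the theorem
that Hodge classes on the tensor constructions are Tate classes, known for motives of absolute Hodge
cycles) the property `MumfordTateFor` is the equality of the groups in the question. This
translation is not formalized. For the abelian variety `A` the data are `W = H_1(A, ℚ)`, the tangent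
space `T`, the Tate module, the Weil pairing; the theorems of Faltings on endomorphisms and on
semisimplicity are part of the data (`IsRealization`). The data of the sum are the direct sums
(`sumHodge`, `sumRep`).

The conditions. Let `γ` be a Frobenius element at a place of good reduction, with a residue field of
`q = p ^ a` elements. The characteristic polynomial of `γ` on the Tate module of `A` is the product
of the minimal polynomials of Weil numbers `π c l` which generate CM fields `K c`, `c` in a finite
set `C`, `l` in a finite set `J c`. The functions `n` on the complex embeddings of `K c` with `n
(conj φ) = - n φ` are an absolutely irreducible representation of the automorphisms of `ℂ`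
(`OddAbsolutelyIrreducible`; this is the generic case). The slopes are in general position in the
following sense. Let the slope function of `π c l` be `τ ↦ log |τ (π c l)| + (log q) / 2` on the
embeddings `τ` of `K c` in the algebraic closure of `ℚ_p`, and `D c` the quadratic form `m ↦ ∑ τ, (∑
l, m l * slope (π c l) τ) ^ 2` in the rational variables `m l` (`slopeForm`);

* `IndependentSlopes`: for each `c` the slope functions of the `π c l` are linearly independent over
  `ℚ`;
* `SeparatedPairs`: the indices `c` form pairs `c`, `β c` such that `K c` and `K c'` are unrelated
  (there are no equivariant maps between the odd functions) if `c'` is different from `c` and `β c`,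
  and if `β c ≠ c` then `[K c : ℚ] ≠ [K (β c) : ℚ]`, or `[K c : ℚ] = 2 g` with odd `g` and `D c` and
  `D (β c)` have no common values at nonzero rational vectors, or `g` is twice an odd number and no
  value of `D c` is a value of `D (β c)` times a sum of two squares (at nonzero vectors).

The condition on `N` is: `γ` is killed on the `ℓ`-adic realization of `N` by a rational polynomial
(by the Weil conjectures one can take a power of the characteristic polynomial) all of whose complex
roots are **products of algebraic numbers, any number of them**, each of which is, for each `c`,
unrelated to `K c` (`UnrelatedTo`: an odd function on the embeddings of `K c` invariant under all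
automorphisms of `ℂ` that fix a power of the number is zero) or of smaller degree than `K c`
(`HarmlessProducts`). For example `N` may be **any direct sum of tensor products of motives of rank
less than `[K c : ℚ]`** (for all `c`), twists included; nothing is assumed on the place except good
reduction.

**First part**: the theorem in general. **Second part**: the fields `K c` are pairwise unrelated,
all `π c l` are ordinary, there are at most three of them for each field, and their slopes are
neither equal nor opposite (`DifferentSlopes`: not isogenous over any extension). **Third part**:
three Weil numbers, `x`, `y` in `F false` and `z` in `F true`, with only the slopes `0`, `1 / 2`,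
`1` and with `p`-ranks `f₁`, `f₂`, `f > 0`, *nothing is assumed about the relation of the two
fields*, `[F false : ℚ] = 2 g` with odd `g`, `2 k` is the number of embeddings at which `x` and `y`
have the same slope minus the number of those at which they have opposite slopes, both different
from `1 / 2` (`agreement`), and the equation `f₁ X ^ 2 + 2 k X Y + f₂ Y ^ 2 = f Z ^ 2` has no
integral solution with `(X, Y) ≠ (0, 0)`; for instance `x`, `y` ordinary, `g = 5`, `k = 1` or `-1`,
`f = 1`.

Relation to the starting files and to the results of this team. The theorems of this folder
(`DominantSlope`, `SignatureFrobeniusMumfordTate`, `MaximalTorusRegularUnipotents`) are about single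
motives. That equivariant multilinear maps from the Tate module to a representation `M` are
combinations of products of Tate forms and Tate vectors, if no eigenvalue on `M` is a product of
Weil numbers of `A` in a nontrivial way, is in the starting files (Y137.MV, for the Tate conjecture
for `A ^ n × U`); that products of harmless numbers are admitted is due to helper306
(`SmallRankTensorMotives`, MP_3703a7_ag). The criterion for the Weil numbers of `A` is the one of
`SeveralTypesRelatedFields` (MP_33b3f9_ag, helper70). New here are the transfer of the Mumford-Tate
conjecture from `N` to `h_1(A) ⊕ N`, for all tensor constructions at once, and the determination of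
the eigenvalues on them.

The proof. Multilinear forms on `V ⊕ M` are sums of mixed forms (`sum_mixed`), and these are
equivariant maps from tensor powers of `V` to the spaces of forms on `M` (`formRep`), twisted. The
eigenvalues of `γ` there are products of inverses of eigenvalues on `M` and of a power of `q`
(`formRep_killed`): the operators on the single variables generate a finite commutative algebra over
`ℚ`, and the complex roots of the characteristic polynomial of an element of it are its images under
homomorphisms to `ℂ` (`exists_hom`). So the eigenvalues are again products of harmless numbers, and
the mixed Tate classes are combinations of products of Tate forms of degree two on `V`, which are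
combinations of Hodge classes by the theorem of Faltings, and of Tate classes for `M`.
-/

set_option autoImplicit false

namespace Pool.Agent.Results.MP_de8692_ag.SumsWithMotives

open NumberField Module IntermediateField Pool.Agent.H204R3.GP Pool.Agent.TH170
  Pool.Agent.Y137.MV Pool.Agent.Y137.SL Pool.Agent.Y1.CT Pool.Agent.Q70.SQ Pool.Agent.Q70.MM

/-- **The Mumford-Tate conjecture holds for `h_1(A) ⊕ N` if and only if it holds for `N`, for the
abelian varieties `A` with a Frobenius element with several Weil numbers in the same CM field or in
related CM fields, with absolutely irreducible odd functions and separated quadratic forms of slopes
(first part), for instance at most three ordinary ones for each field (second part), or three Weil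
numbers in two arbitrary such fields with a ternary equation (third part), and for arbitrary motives
`N` whose Frobenius eigenvalues are products of numbers unrelated to these fields or of smaller
degree.** -/
theorem result :
    (∀ (p : ℕ) [Fact p.Prime] (a : ℕ) (C : Type) [Fintype C] (K : C → Type)
      [∀ c, Field (K c)] [∀ c, NumberField (K c)] [∀ c, IsCMField (K c)]
      (J : C → Type) [∀ c, Fintype (J c)] (π : ∀ c, J c → K c), 0 < a →
      IsSystem p a π → SeparatedPairs p a π →
      SumHolds p a K (fun i : Σ c, J c => K i.1) (fun i => π i.1 i.2)) ∧
    (∀ (p : ℕ) [Fact p.Prime] (a : ℕ) (C : Type) [Fintype C] (K : C → Type)
      [∀ c, Field (K c)] [∀ c, NumberField (K c)] [∀ c, IsCMField (K c)]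
      (J : C → Type) [∀ c, Fintype (J c)] (π : ∀ c, J c → K c), 0 < a →
      (∀ c l, ℚ⟮π c l⟯ = ⊤) →
      (∀ c l, π c l * IsCMField.complexConj (K c) (π c l) = (p : K c) ^ a) →
      (∀ c, OddAbsolutelyIrreducible (K c)) →
      (∀ c c', c ≠ c' → Pool.Agent.Y137.MV.Unrelated (K c) (K c')) →
      (∀ c, Fintype.card (J c) ≤ 3) → (∀ c l, IsOrdinary p a (π c l)) →
      (∀ c l l', l ≠ l' → DifferentSlopes p a (π c l) (π c l')) →
      SumHolds p a K (fun i : Σ c, J c => K i.1) (fun i => π i.1 i.2)) ∧
    (∀ (p : ℕ) [Fact p.Prime] (a : ℕ) (F : Bool → Type)
      [∀ b, Field (F b)] [∀ b, NumberField (F b)] [∀ b, IsCMField (F b)]
      (x y : F false) (z : F true) (f₁ f₂ f : ℕ) (k : ℤ), 0 < a →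
      IsTriple p a x y z f₁ f₂ f k →
      SumHolds p a F (fun i : Σ b : Bool, Fin (cond b 1 2) => F i.1)
        (fun i => twoOne x y z i.1 i.2)) := by
  refine ⟨?_, ?_, ?_⟩
  · intro p _ a C _ K _ _ _ J _ π ha hS hsep
    exact sumHolds (fun c => (hS.abs c).1) (fun i => hS.gen i.1 i.2) (fun i => hS.weil i.1 i.2)
      (angle_of_forms π ha hS.weil hS.abs hS.slopes hsep)
  · intro p _ a C _ K _ _ _ J _ π ha hg hw habs hun hcard hord hdiff
    exact sumHolds (fun c => (habs c).1) (fun i => hg i.1 i.2) (fun i => hw i.1 i.2)
      (angle_same π ha hw habs hun (independent_of_three π ha hcard hord hdiff))
  · intro p _ a F _ _ _ x y z f₁ f₂ f k ha hT
    exact sumHolds (J := fun b : Bool => Fin (cond b 1 2)) (π := twoOne x y z)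
      (fun b => by
        cases b
        · exact hT.abs.1.1
        · exact hT.abs.2.1) (triple_gen hT) (triple_weil hT) (angle_triple ha hT)

end Pool.Agent.Results.MP_de8692_ag.SumsWithMotives
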